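import Pool.Agent.Lib.MP_7c08ba_nt.RZ.R1.SpecD
import Pool.Agent.Lib.MP_7c08ba_nt.RZ.All
import Pool.Agent.Lib.MP_7c08ba_nt.RZ.C.All

set_option autoImplicit false

/-!
The spectral theorem in level one, without hypotheses.
-/

namespace Pool.Agent.Lib.MP_7c08ba_nt

namespace RZ

open NumberField MeasureTheory UpperHalfPlane Set
open scoped MatrixGroups ComplexConjugate nonZeroDivisors

namespace Spec

open SpanAux

variable {w : ℕ}

/-- Cusp forms of level one are spanned by normalised eigenforms. -/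
theorem span_eigen_all (hw : 4 ≤ w) (hev : Even w) :
    Submodule.span ℂ {f : CuspForm 𝒮ℒ (w : ℤ) | IsEigen f} = ⊤ :=
  span_eigen aPoi aPetU aCoef aFd aSpan aTrP RZC.pHecke hw hev

/-- The expansion of cusp forms in normalised eigenforms. -/
theorem expansion_all (hw : 4 ≤ w) (hev : Even w) :
    ∃ E : Finset (CuspForm 𝒮ℒ (w : ℤ)), (∀ f, f ∈ E ↔ IsEigen f) ∧
      ∀ h : CuspForm 𝒮ℒ (w : ℤ), h = ∑ f ∈ E, (pet f h / pet f f) • f :=
  expansion aPoi aPetU aCoef aFd aSpan aTrP RZC.pHecke hw hev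

/-- The expansion of Poincaré series in normalised eigenforms. -/
theorem expansion_poinc_all (hw : 4 ≤ w) (hev : Even w) :
    ∃ E : Finset (CuspForm 𝒮ℒ (w : ℤ)), (∀ f, f ∈ E ↔ IsEigen f) ∧
      ∀ (m : ℕ) (P : CuspForm 𝒮ℒ (w : ℤ)), 1 ≤ m → (∀ z : ℍ, P z = poinc w m z) →
        P = ∑ f ∈ E, (conj (coef f m) * (cst w m : ℂ) / pet f f) • f :=
  expansion_poinc aPoi aPetU aCoef aFd aSpan aTrP RZC.pHecke hw hev

/-- A linear functional which is not zero is not zero on some eigenform. -/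
theorem exists_eigen_ne_all (hw : 4 ≤ w) (hev : Even w) (Φ : CuspForm 𝒮ℒ (w : ℤ) →ₗ[ℂ] ℂ)
    (h : CuspForm 𝒮ℒ (w : ℤ)) (hΦ : Φ h ≠ 0) : ∃ f : CuspForm 𝒮ℒ (w : ℤ), IsEigen f ∧ Φ f ≠ 0 :=
  exists_eigen_ne aPoi aPetU aCoef aFd aSpan aTrP RZC.pHecke hw hev Φ h hΦ

/-- Orthogonality. -/
theorem pet_eigen_all (hw : 4 ≤ w) (hev : Even w) {f g : CuspForm 𝒮ℒ (w : ℤ)}
    (hf : IsEigen f) (hg : IsEigen g) (hfg : f ≠ g) : pet f g = 0 :=
  pet_eigen aPoi aPetU aCoef aFd aSpan aTrP RZC.pHecke hw hev hf hg hfg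

/-- The product of an eigenform with itself is positive. -/
theorem pet_self_pos (hw : 4 ≤ w) (hev : Even w) {f : CuspForm 𝒮ℒ (w : ℤ)} (hf : IsEigen f) :
    ∃ x : ℝ, 0 < x ∧ pet f f = (x : ℂ) := by
  have h1 := pet_self_ne aPoi aPetU aCoef aFd hw hev hf
  rw [pet_self] at h1 ⊢
  refine ⟨_, lt_of_le_of_ne ?_ fun h => h1 ?_, rfl⟩
  · exact integral_nonneg fun z => by
      have := z.im_pos
      positivity
  · rw [← h, Complex.ofReal_zero]

/-- The coefficients of eigenforms are real. -/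
theorem coef_real_all (hw : 4 ≤ w) (hev : Even w) {f : CuspForm 𝒮ℒ (w : ℤ)} (hf : IsEigen f)
    (n : ℕ) : conj (coef f n) = coef f n := by
  induction n using Nat.strong_induction_on with
  | _ n ih =>
  rcases Nat.eq_zero_or_pos n with rfl | hn
  · rw [(aCoef w f).1, map_zero]
  rcases Nat.lt_or_ge 1 n with hn1 | hn1
  swap
  · have : n = 1 := by omega
    rw [this, hf.one, map_one]
  obtain ⟨p, hp, m, rfl⟩ := Nat.exists_prime_and_dvd (by omega : n ≠ 1)
  have hm0 : 0 < m := Nat.pos_of_ne_zero (by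
    rintro rfl
    omega)
  have hm : m < p * m := by
    have := hp.two_le
    nlinarith
  have key : coef f (p * m) = coef f p * coef f m -
      if p ∣ m then (p : ℂ) ^ (w - 1) * coef f (m / p) else 0 := by
    rw [hf.mul p m hp.pos hm0]
    by_cases hpn : p ∣ m
    · rw [if_pos hpn, Nat.gcd_eq_left hpn, hp.divisors, Finset.sum_pair hp.ne_one.symm]
      have h6 : p * m / p ^ 2 = m / p := by rw [pow_two, Nat.mul_div_mul_left _ _ hp.pos]
      rw [h6]
      simp
    · have h6 : p.gcd m = 1 := (hp.coprime_iff_not_dvd).mpr hpn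
      rw [if_neg hpn, h6, Nat.divisors_one, Finset.sum_singleton]
      simp
  rw [key, map_sub, map_mul, coef_real aPoi aPetU aCoef aFd aSpan aTrP RZC.pHecke hw hev hf hp,
    ih m hm]
  congr 1
  split_ifs
  · rw [map_mul, map_pow, map_natCast, ih (m / p) (lt_of_le_of_lt (Nat.div_le_self m p) hm)]
  · rw [map_zero]

end Spec

end RZ

end Pool.Agent.Lib.MP_7c08ba_nt
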