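import Pool.Agent.Lib.MP_7c08ba_nt.RZ.R1.EigR

set_option autoImplicit false

/-!
The strict bound for the Hecke eigenvalues in level one (R33).
-/

namespace Pool.Agent.Lib.MP_7c08ba_nt

namespace RZ

open NumberField MeasureTheory UpperHalfPlane Set
open scoped MatrixGroups ComplexConjugate nonZeroDivisors

namespace Spec

open SpanAux

variable {w : ℕ}

/-- The invariant absolute value of a cusp form. -/
noncomputable def ph (f : CuspForm 𝒮ℒ (w : ℤ)) (z : ℍ) : ℝ := ‖f z‖ * z.im ^ ((w : ℝ) / 2)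

theorem ph_nonneg (f : CuspForm 𝒮ℒ (w : ℤ)) (z : ℍ) : 0 ≤ ph f z := by
  have := z.im_pos
  unfold ph
  positivity

theorem ph_sq (f : CuspForm 𝒮ℒ (w : ℤ)) (z : ℍ) : ph f z ^ 2 = ‖petersson w f f z‖ := by
  have hy : 0 < z.im := z.im_pos
  have e : (z.im : ℝ) ^ w = z.im ^ ((w : ℝ) / 2) * z.im ^ ((w : ℝ) / 2) := by
    rw [← Real.rpow_add hy, add_halves, Real.rpow_natCast]
  unfold ph petersson
  rw [norm_mul, norm_mul, RCLike.norm_conj, zpow_natCast, norm_pow, Complex.norm_real,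
    Real.norm_of_nonneg hy.le, e]
  ring

theorem ph_smul (f : CuspForm 𝒮ℒ (w : ℤ)) (g : SL(2, ℤ)) (z : ℍ) : ph f (g • z) = ph f z := by
  have h : ph f (g • z) ^ 2 = ph f z ^ 2 := by
    rw [ph_sq, ph_sq]
    exact SlashInvariantFormClass.norm_petersson_smul (MonoidHom.mem_range.mpr ⟨g, rfl⟩)
  exact (pow_left_inj₀ (ph_nonneg _ _) (ph_nonneg _ _) two_ne_zero).mp h

theorem continuous_ph (f : CuspForm 𝒮ℒ (w : ℤ)) : Continuous (ph f) := by
  unfold ph
  refine (continuous_norm.comp (continuous_cusp f)).mul ?_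
  exact continuous_im.rpow_const fun z => .inl z.im_ne_zero

theorem ph_small (f : CuspForm 𝒮ℒ (w : ℤ)) {e : ℝ} (he : 0 < e) :
    ∃ Y : ℝ, ∀ z : ℍ, Y ≤ z.im → ph f z < e := by
  have h := IsZeroAtImInfty.petersson_isZeroAtImInfty_left (k := w) 𝒮ℒ
    (CuspFormClass.zero_at_infty f) f
  rw [isZeroAtImInfty_iff] at h
  obtain ⟨A, hA⟩ := h (e ^ 2 / 2) (by positivity)
  refine ⟨A, fun z hz => ?_⟩
  have h2 := hA z hz
  rw [← ph_sq] at h2
  have h3 : ph f z ^ 2 < e ^ 2 := by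
    have : 0 < e ^ 2 := by positivity
    linarith
  exact lt_of_pow_lt_pow_left₀ 2 he.le h3

theorem exists_max {f : CuspForm 𝒮ℒ (w : ℤ)} (hf : f ≠ 0) :
    ∃ z : ℍ, 0 < ph f z ∧ ∀ z', ph f z' ≤ ph f z := by
  obtain ⟨z₁, hz₁⟩ : ∃ z, f z ≠ 0 := by
    by_contra h
    push Not at h
    exact hf (DFunLike.ext _ _ h)
  have h1 : 0 < ph f z₁ := by
    have := z₁.im_pos
    unfold ph
    positivity
  obtain ⟨Y, hY⟩ := ph_small f h1
  obtain ⟨g, hg⟩ := ModularGroup.exists_smul_mem_fd z₁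
  have hmem : g • z₁ ∈ ModularGroup.truncatedFundamentalDomain Y := by
    refine ⟨hg, ?_⟩
    by_contra h
    have := hY _ (not_le.mp h).le
    rw [ph_smul] at this
    exact lt_irrefl _ this
  obtain ⟨z, hz, hmax⟩ := (ModularGroup.isCompact_truncatedFundamentalDomain Y).exists_isMaxOn
    ⟨_, hmem⟩ (continuous_ph f).continuousOn
  have h2 : ph f z₁ ≤ ph f z := by
    rw [← ph_smul f g]
    exact hmax hmem
  refine ⟨z, lt_of_lt_of_le h1 h2, fun z' => ?_⟩
  obtain ⟨g', hg'⟩ := ModularGroup.exists_smul_mem_fd z'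
  rcases le_or_gt (g' • z').im Y with h3 | h3
  · rw [← ph_smul f g']
    exact hmax (show g' • z' ∈ ModularGroup.truncatedFundamentalDomain Y from ⟨hg', h3⟩)
  · rw [← ph_smul f g']
    exact ((hY _ h3.le).le).trans h2

theorem im_mul_pos {p : ℕ} (hp : 0 < p) (z : ℍ) : 0 < ((p : ℂ) * z).im := by
  rw [← Complex.ofReal_natCast, Complex.im_ofReal_mul]
  exact mul_pos (by exact_mod_cast hp) z.im_pos

theorem im_div_pos {p : ℕ} (hp : 0 < p) (b : ℕ) (z : ℍ) : 0 < (((z : ℂ) + b) / p).im := by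
  rw [← Complex.ofReal_natCast (n := p), Complex.div_ofReal_im, Complex.add_im,
    Complex.natCast_im, add_zero]
  exact div_pos z.im_pos (by exact_mod_cast hp)

/-- The inequality for the Hecke operator. -/
theorem ph_T (hw : 4 ≤ w) (hev : Even w) {f : CuspForm 𝒮ℒ (w : ℤ)} (hf : IsEigen f) {p : ℕ}
    (hp : p.Prime) (z : ℍ) :
    ‖coef f p‖ * ph f z ≤ (p : ℝ) ^ ((w : ℝ) / 2 - 1) * (ph f ⟨(p : ℂ) * z, im_mul_pos hp.pos z⟩ +
      ∑ b ∈ Finset.range p, ph f ⟨((z : ℂ) + b) / p, im_div_pos hp.pos b z⟩) := by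
  have hp0 : (0 : ℝ) < p := by exact_mod_cast hp.pos
  have hy : 0 < z.im := z.im_pos
  have h1 : T aPoi aSpan aTrP hw hev hp f = coef f p • f :=
    T_eigen aPoi aCoef aSpan aTrP RZC.pHecke hw hev hf hp
  have h2 : coef f p * f z = (p : ℂ) ^ (w - 1) * f ⟨(p : ℂ) * z, im_mul_pos hp.pos z⟩ +
      ∑ b ∈ Finset.range p, (p : ℂ)⁻¹ * f ⟨((z : ℂ) + b) / p, im_div_pos hp.pos b z⟩ := by
    have h3 : coef f p * f z = T aPoi aSpan aTrP hw hev hp f z := by
      rw [h1]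
      rfl
    rw [h3, T_apply, Tpt_eq hp]
    congr 1
    · rw [ext_pos f (im_mul_pos hp.pos z)]
    · exact Finset.sum_congr rfl fun b _ => by rw [ext_pos f (im_div_pos hp.pos b z)]
  have e1 : (p : ℝ) ^ (w - 1) = (p : ℝ) ^ ((w : ℝ) / 2 - 1) * (p : ℝ) ^ ((w : ℝ) / 2) := by
    rw [← Real.rpow_add hp0, ← Real.rpow_natCast, Nat.cast_sub (by omega)]
    congr 1
    push_cast
    ring
  have e2 : (p : ℝ)⁻¹ * (p : ℝ) ^ ((w : ℝ) / 2) = (p : ℝ) ^ ((w : ℝ) / 2 - 1) := by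
    rw [Real.rpow_sub_one hp0.ne']
    field_simp
  have a1 : (z.im : ℝ) ^ ((w : ℝ) / 2) * (p : ℝ) ^ (w - 1) *
      ‖f ⟨(p : ℂ) * z, im_mul_pos hp.pos z⟩‖ =
      (p : ℝ) ^ ((w : ℝ) / 2 - 1) * ph f ⟨(p : ℂ) * z, im_mul_pos hp.pos z⟩ := by
    have h4 : (⟨(p : ℂ) * z, im_mul_pos hp.pos z⟩ : ℍ).im = p * z.im := by
      change ((p : ℂ) * z).im = _
      rw [← Complex.ofReal_natCast, Complex.im_ofReal_mul]
      rfl
    unfold ph
    rw [h4, Real.mul_rpow hp0.le hy.le, e1]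
    ring
  have a2 : ∀ b : ℕ, (z.im : ℝ) ^ ((w : ℝ) / 2) * ((p : ℝ)⁻¹ *
      ‖f ⟨((z : ℂ) + b) / p, im_div_pos hp.pos b z⟩‖) =
      (p : ℝ) ^ ((w : ℝ) / 2 - 1) * ph f ⟨((z : ℂ) + b) / p, im_div_pos hp.pos b z⟩ := by
    intro b
    have h4 : (⟨((z : ℂ) + b) / p, im_div_pos hp.pos b z⟩ : ℍ).im = z.im / p := by
      change (((z : ℂ) + b) / p).im = _
      rw [← Complex.ofReal_natCast (n := p), Complex.div_ofReal_im, Complex.add_im,
        Complex.natCast_im, add_zero]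
      rfl
    unfold ph
    rw [h4, Real.div_rpow hy.le hp0.le, ← e2]
    field_simp
  have h5 : ‖coef f p‖ * ph f z = (z.im : ℝ) ^ ((w : ℝ) / 2) * ‖coef f p * f z‖ := by
    unfold ph
    rw [norm_mul]
    ring
  rw [h5, h2, mul_add, ← a1, Finset.mul_sum]
  simp_rw [← a2]
  refine (mul_le_mul_of_nonneg_left (norm_add_le _ _) (by positivity)).trans ?_
  rw [mul_add]
  refine add_le_add (le_of_eq ?_) ?_
  · rw [norm_mul, norm_pow, Complex.norm_natCast]
    ring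
  have hpos : 0 ≤ z.im ^ ((w : ℝ) / 2) := by positivity
  refine (mul_le_mul_of_nonneg_left (norm_sum_le _ _) hpos).trans ?_
  rw [Finset.mul_sum]
  refine Finset.sum_le_sum fun b _ => ?_
  rw [norm_mul, norm_inv, Complex.norm_natCast]

end Spec

open Spec SpanAux

/-- (R33) -/
theorem stAp : StAp := by
  intro w f hf p hp
  have hf0 : f ≠ 0 := by
    rintro rfl
    have := hf.one
    unfold coef at this
    rw [FunLike.coe_zero, qExpansion_zero, map_zero] at this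
    exact zero_ne_one this
  have hw : 12 ≤ w := by
    by_contra h
    exact hf0 (eq_zero_of_lt (by omega) f)
  have hev : Even w := by
    by_contra h
    have hodd : Odd (w : ℤ) := by
      rw [Int.odd_coe_nat]
      exact Nat.not_even_iff_odd.mp h
    have h1 := ModularForm.levelOne_odd_weight_eq_zero hodd (CuspForm.toModularFormₗ f)
    refine hf0 (DFunLike.ext _ _ fun z => ?_)
    have h2 := DFunLike.congr_fun h1 z
    exact h2
  have hp0 : (0 : ℝ) < p := by exact_mod_cast hp.pos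
  have hp1 : (1 : ℝ) < p := by exact_mod_cast hp.one_lt
  obtain ⟨z₀, hz₀, hmax⟩ := exists_max hf0
  set M := ph f z₀ with hM
  set K : ℝ := (p : ℝ) ^ ((w : ℝ) / 2 - 1) with hK
  have hKpos : 0 < K := by positivity
  have key : ∀ z : ℍ, ph f z = M → ‖coef f p‖ * M ≤
      K * (ph f ⟨(p : ℂ) * z, im_mul_pos hp.pos z⟩ + p * M) := by
    intro z hz
    rw [← hz]
    refine (ph_T (by omega) hev hf hp z).trans ?_
    refine mul_le_mul_of_nonneg_left (add_le_add le_rfl ?_) hKpos.le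
    rw [hz]
    calc ∑ b ∈ Finset.range p, ph f ⟨((z : ℂ) + b) / p, im_div_pos hp.pos b z⟩
        ≤ ∑ b ∈ Finset.range p, M := Finset.sum_le_sum fun b _ => hmax _
      _ = p * M := by rw [Finset.sum_const, Finset.card_range, nsmul_eq_mul]
  by_contra hlt
  push Not at hlt
  have step : ∀ z : ℍ, ph f z = M → ph f ⟨(p : ℂ) * z, im_mul_pos hp.pos z⟩ = M := by
    intro z hz
    refine le_antisymm (hmax _) ?_
    have h1 := key z hz
    have h2 : (p + 1 : ℝ) * K * M ≤ K * (ph f ⟨(p : ℂ) * z, im_mul_pos hp.pos z⟩ + p * M) :=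
      (mul_le_mul_of_nonneg_right hlt hz₀.le).trans h1
    have h3 : K * ((p + 1) * M) ≤ K * (ph f ⟨(p : ℂ) * z, im_mul_pos hp.pos z⟩ + p * M) := by
      calc K * ((p + 1) * M) = (p + 1 : ℝ) * K * M := by ring
        _ ≤ _ := h2
    have h4 := le_of_mul_le_mul_left h3 hKpos
    linarith
  have all : ∀ n : ℕ, ∃ z : ℍ, z.im = (p : ℝ) ^ n * z₀.im ∧ ph f z = M := by
    intro n
    induction n with
    | zero => exact ⟨z₀, by rw [pow_zero, one_mul], rfl⟩
    | succ n ih =>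
      obtain ⟨z, h1, h2⟩ := ih
      refine ⟨_, ?_, step z h2⟩
      change ((p : ℂ) * z).im = _
      rw [← Complex.ofReal_natCast, Complex.im_ofReal_mul]
      change (p : ℝ) * z.im = _
      rw [h1]
      ring
  obtain ⟨Y, hY⟩ := ph_small f hz₀
  obtain ⟨n, hn⟩ := pow_unbounded_of_one_lt (Y / z₀.im) hp1
  obtain ⟨z, h1, h2⟩ := all n
  have h3 : Y ≤ z.im := by
    rw [h1]
    exact ((div_lt_iff₀ z₀.im_pos).mp hn).le
  exact absurd h2 (hY z h3).ne

end RZ

end Pool.Agent.Lib.MP_7c08ba_nt
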