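import Pool.Agent.Lib.MP_7c08ba_nt.RZ.R1.SpecAll
import Pool.Agent.Lib.MP_7c08ba_nt.RZ.StR

set_option autoImplicit false

/-!
The spectral theorem in level one, in the form of the statements for rank one (R28 to R32).
-/

namespace Pool.Agent.Lib.MP_7c08ba_nt

namespace RZ

open NumberField MeasureTheory UpperHalfPlane Set
open scoped MatrixGroups ComplexConjugate nonZeroDivisors

namespace Spec

open SpanAux

variable {w : ℕ}

theorem eq_zero_of_lt (hw : w < 12) (f : CuspForm 𝒮ℒ (w : ℤ)) : f = 0 :=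
  rank_zero_iff_forall_zero.mp
    (CuspForm.rank_eq_zero_of_weight_lt_twelve (by exact_mod_cast hw)) f

theorem cst_eq {m : ℕ} (hw : 4 ≤ w) :
    (cst w m : ℂ) = ((w - 2).factorial : ℂ) * ((4 * Real.pi * m : ℂ) ^ (w - 1))⁻¹ := by
  unfold cst
  have h2 : (w : ℝ) - 1 = ((w - 1 : ℕ) : ℝ) := by
    rw [Nat.cast_sub (by omega)]
    simp
  have h3 : (w : ℝ) - 1 = ((w - 2 : ℕ) : ℝ) + 1 := by
    rw [Nat.cast_sub (by omega)]
    push_cast
    ring
  rw [show Real.Gamma ((w : ℝ) - 1) = ((w - 2).factorial : ℝ) by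
    rw [h3, Real.Gamma_nat_eq_factorial], h2, Real.rpow_natCast]
  push_cast
  rw [one_div, inv_pow]
  ring

theorem int_eq_pet (f g : CuspForm 𝒮ℒ (w : ℤ)) :
    ∫ z : ℍ in ModularGroup.fd, f z * conj (g z) * (z.im : ℂ) ^ w = pet g f := by
  unfold pet
  refine integral_congr_ae (Filter.Eventually.of_forall fun z => ?_)
  change _ = conj (g z) * f z * (z.im : ℂ) ^ w
  ring

theorem pet_pos (hw : 4 ≤ w) (hev : Even w) {f : CuspForm 𝒮ℒ (w : ℤ)} (hf : f ≠ 0) :
    ∃ x : ℝ, 0 < x ∧ pet f f = (x : ℂ) := by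
  have h1 : pet f f ≠ 0 := fun h => hf (pet_definite aPoi aPetU aCoef aFd hw hev h)
  rw [pet_self] at h1 ⊢
  refine ⟨_, lt_of_le_of_ne ?_ fun h => h1 ?_, rfl⟩
  · exact integral_nonneg fun z => by
      have := z.im_pos
      positivity
  · rw [← h, Complex.ofReal_zero]

end Spec

open Spec SpanAux

/-- (R28) -/
theorem stHp : StHp := by
  intro w p hp hw hev
  refine ⟨T aPoi aSpan aTrP hw hev hp, fun f => ⟨coef_T aPoi aSpan aTrP hw hev RZC.pHecke hp f,
    fun z hz => ?_⟩⟩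
  rw [ofComplex_apply_of_im_pos hz, T_apply, Tpt_eq hp, ← Finset.mul_sum]
  rfl

/-- (R29) -/
theorem stPP : StPP := by
  intro w hw hev
  refine ⟨fun f g => ?_, fun f hf => ?_, fun m f P hm hP => ?_⟩
  · refine (integrable_pet aCoef aFd g f).congr (Filter.Eventually.of_forall fun z => ?_)
    change conj (g z) * f z * (z.im : ℂ) ^ w = _
    ring
  · obtain ⟨x, hx, h⟩ := pet_pos hw hev hf
    exact ⟨x, hx, by rw [int_eq_pet, h]⟩
  · rw [int_eq_pet, pet_poinc aPetU aCoef hw hev hm ⟨hP⟩, cst_eq hw]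
    ring

/-- (R30) -/
theorem stHer : StHer := by
  intro w p T' hp hw hev hT' f g
  have h : ∀ f, T' f = T aPoi aSpan aTrP hw hev hp f := fun f => coef_ext aCoef fun n => by
    rw [hT', coef_T aPoi aSpan aTrP hw hev RZC.pHecke hp f]
  rw [int_eq_pet, int_eq_pet, h, h]
  exact (T_symm aPoi aSpan aTrP hw hev aPetU aCoef aFd RZC.pHecke hp g f).symm

/-- (R31) -/
theorem stMulE : StMulE := by
  intro w f l _ hf h
  rcases Nat.lt_or_ge w 4 with hw | hw
  · exact absurd (eq_zero_of_lt (by omega) f) hf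
  · exact exists_eigen aCoef hw hf h

/-- (R32) -/
theorem stEigS : StEigS := by
  intro w hw hev
  exact ⟨span_eigen_all hw hev, fun f hf p _ => Complex.conj_eq_iff_im.mp
    (coef_real_all hw hev hf p)⟩

end RZ

end Pool.Agent.Lib.MP_7c08ba_nt
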