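import Pool.Agent.Lib.MP_7c08ba_nt.RZ.R1.SpecC

set_option autoImplicit false

/-!
Cusp forms of level one are spanned by normalised eigenforms; orthogonality; expansions.
-/

namespace Pool.Agent.Lib.MP_7c08ba_nt

namespace RZ

open NumberField MeasureTheory UpperHalfPlane Set
open scoped MatrixGroups ComplexConjugate nonZeroDivisors

namespace Spec

open SpanAux

variable {w : ℕ}

lemma coef_smul (c : ℂ) (f : CuspForm 𝒮ℒ (w : ℤ)) (n : ℕ) :
    coef (c • f) n = c * coef f n := by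
  unfold coef
  rw [FunLike.coe_smul, ModularForm.qExpansion_smul one_pos one_mem_strictPeriods_SL c f, map_smul,
    smul_eq_mul]

/-- A joint eigenvector is a multiple of a normalised eigenform. -/
theorem exists_eigen (h3 : StCoef) (hw : 4 ≤ w) {f : CuspForm 𝒮ℒ (w : ℤ)} (hf : f ≠ 0)
    {χ : ℕ → ℂ} (h : ∀ p : ℕ, p.Prime → ∀ n : ℕ,
      coef f (p * n) + (if p ∣ n then (p : ℂ) ^ (w - 1) * coef f (n / p) else 0) =
        χ p * coef f n) :
    coef f 1 ≠ 0 ∧ IsEigen ((coef f 1)⁻¹ • f) := by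
  have h1 : coef f 1 ≠ 0 := by
    intro h0
    apply hf
    refine ee_sum_eq_zero h3 fun n => ?_
    induction n using Nat.strong_induction_on with
    | _ n ih =>
    rcases Nat.eq_zero_or_pos n with rfl | hn
    · exact (h3 w f).1
    rcases Nat.lt_or_ge 1 n with hn1 | hn1
    swap
    · have : n = 1 := by omega
      rw [this, h0]
    obtain ⟨p, hp, m, rfl⟩ := Nat.exists_prime_and_dvd (by omega : n ≠ 1)
    have hm : m < p * m := by
      have := hp.two_le
      have : 0 < m := Nat.pos_of_ne_zero (by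
        rintro rfl
        omega)
      nlinarith
    have h5 := h p hp m
    rw [ih m hm, mul_zero] at h5
    have h6 : (if p ∣ m then (p : ℂ) ^ (w - 1) * coef f (m / p) else 0) = 0 := by
      split_ifs with h7
      · rw [ih (m / p) (lt_of_le_of_lt (Nat.div_le_self m p) hm), mul_zero]
      · rfl
    rw [h6, add_zero] at h5
    exact h5
  refine ⟨h1, ?_, ?_⟩
  · rw [coef_smul, inv_mul_cancel₀ h1]
  · have h2 : PrimeRel (w - 1) fun n => coef ((coef f 1)⁻¹ • f) n := by
      intro p n hp hn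
      simp only [coef_smul]
      have h5 := h p hp 1
      rw [mul_one, if_neg (fun h6 => hp.one_lt.ne' (Nat.dvd_one.mp h6)), add_zero] at h5
      have h7 := h p hp n
      rw [h5]
      by_cases h6 : p ∣ n
      · rw [if_pos h6] at h7 ⊢
        field_simp
        linear_combination -h7
      · rw [if_neg h6] at h7 ⊢
        field_simp
        linear_combination -h7
    intro m n hm hn
    exact mul_of_prime (w - 1) (by
      change coef ((coef f 1)⁻¹ • f) 1 = 1
      rw [coef_smul, inv_mul_cancel₀ h1]) h2 m n hm hn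

theorem pet_add_right (h3 : StCoef) (h4 : StFd) (g h h' : CuspForm 𝒮ℒ (w : ℤ)) :
    pet g (h + h') = pet g h + pet g h' := by
  rw [← conj_pet, pet_add_left h3 h4, map_add, conj_pet, conj_pet]

theorem pet_smul_right (g h : CuspForm 𝒮ℒ (w : ℤ)) (c : ℂ) : pet g (c • h) = c * pet g h := by
  rw [← conj_pet, pet_smul_left, map_mul, Complex.conj_conj, conj_pet]

theorem pet_sum_right (h3 : StCoef) (h4 : StFd) {ι : Type} (s : Finset ι)
    (f : ι → CuspForm 𝒮ℒ (w : ℤ)) (h : CuspForm 𝒮ℒ (w : ℤ)) :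
    pet h (∑ i ∈ s, f i) = ∑ i ∈ s, pet h (f i) := by
  rw [← conj_pet, pet_sum_left h3 h4, map_sum]
  exact Finset.sum_congr rfl fun i _ => conj_pet _ _

/-- Cusp forms of level one are spanned by normalised eigenforms. -/
theorem span_eigen (h1 : StPoi) (h2 : StPetU) (h3 : StCoef) (h4 : StFd) (hS : StSpan)
    (hT : StTrP) (hH : RZC.StHecke) (hw : 4 ≤ w) (hev : Even w) :
    Submodule.span ℂ {f : CuspForm 𝒮ℒ (w : ℤ) | IsEigen f} = ⊤ := by
  letI := core h1 h2 h3 h4 hw hev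
  letI : NormedAddCommGroup (CuspForm 𝒮ℒ (w : ℤ)) :=
    InnerProductSpace.Core.toNormedAddCommGroup (𝕜 := ℂ)
  letI : InnerProductSpace ℂ (CuspForm 𝒮ℒ (w : ℤ)) := InnerProductSpace.ofCore _
  have hfd : FiniteDimensional ℂ (CuspForm 𝒮ℒ (w : ℤ)) :=
    FiniteDimensional.of_injective CuspForm.toModularFormₗ CuspForm.toModularFormₗ_injective
  let TT : Nat.Primes → CuspForm 𝒮ℒ (w : ℤ) →ₗ[ℂ] CuspForm 𝒮ℒ (w : ℤ) := fun p =>
    T h1 hS hT hw hev p.2
  have hsym : ∀ p, (TT p).IsSymmetric := fun p f g =>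
    T_symm h1 hS hT hw hev h2 h3 h4 hH p.2 f g
  have hcom : Pairwise (Function.onFun Commute TT) := by
    intro p q hpq
    change TT p * TT q = TT q * TT p
    refine LinearMap.ext fun f => ?_
    exact T_comm h1 hS hT hw hev h3 hH p.2 q.2 (fun h => hpq (Subtype.ext h)) f
  have htop := LinearMap.IsSymmetric.iSup_iInf_eq_top_of_commute hsym hcom
  rw [eq_top_iff, ← htop, iSup_le_iff]
  intro χ f hf
  rw [Submodule.mem_iInf] at hf
  by_cases hf0 : f = 0
  · rw [hf0]
    exact Submodule.zero_mem _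
  obtain ⟨h5, h6⟩ := exists_eigen (f := f) h3 hw hf0
    (χ := fun p => if hp : p.Prime then χ ⟨p, hp⟩ else 0) (by
      intro p hp n
      rw [dif_pos hp, ← coef_T h1 hS hT hw hev hH hp, ← coef_smul]
      congr 1
      exact Module.End.mem_eigenspace_iff.mp (hf ⟨p, hp⟩))
  have h7 : f = coef f 1 • ((coef f 1)⁻¹ • f) := by
    rw [smul_smul, mul_inv_cancel₀ h5, one_smul]
  rw [h7]
  exact Submodule.smul_mem _ _ (Submodule.subset_span h6)

/-- Hecke operators on eigenforms. -/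
theorem T_eigen (h1 : StPoi) (h3 : StCoef) (hS : StSpan) (hT : StTrP) (hH : RZC.StHecke)
    (hw : 4 ≤ w) (hev : Even w) {f : CuspForm 𝒮ℒ (w : ℤ)} (hf : IsEigen f) {p : ℕ}
    (hp : p.Prime) : T h1 hS hT hw hev hp f = coef f p • f := by
  refine coef_ext h3 fun n => ?_
  rw [coef_T h1 hS hT hw hev hH hp, coef_smul]
  rcases Nat.eq_zero_or_pos n with rfl | hn
  · simp [(h3 w f).1]
  · have h5 := hf.mul p n hp.pos hn
    rw [h5]
    by_cases hpn : p ∣ n
    · rw [if_pos hpn, Nat.gcd_eq_left hpn, hp.divisors, Finset.sum_pair hp.ne_one.symm]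
      have h6 : p * n / p ^ 2 = n / p := by rw [pow_two, Nat.mul_div_mul_left _ _ hp.pos]
      rw [h6]
      simp
    · have h6 : p.gcd n = 1 := (hp.coprime_iff_not_dvd).mpr hpn
      rw [if_neg hpn, h6, Nat.divisors_one, Finset.sum_singleton]
      simp

/-- Different eigenforms have different eigenvalues. -/
theorem exists_ne (h3 : StCoef) {f g : CuspForm 𝒮ℒ (w : ℤ)} (hf : IsEigen f) (hg : IsEigen g)
    (hfg : f ≠ g) : ∃ p : ℕ, p.Prime ∧ coef f p ≠ coef g p := by
  by_contra hcon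
  push Not at hcon
  apply hfg
  refine coef_ext h3 fun n => ?_
  induction n using Nat.strong_induction_on with
  | _ n ih =>
  rcases Nat.eq_zero_or_pos n with rfl | hn
  · rw [(h3 w f).1, (h3 w g).1]
  rcases Nat.lt_or_ge 1 n with hn1 | hn1
  swap
  · have : n = 1 := by omega
    rw [this, hf.one, hg.one]
  obtain ⟨p, hp, m, rfl⟩ := Nat.exists_prime_and_dvd (by omega : n ≠ 1)
  have hm0 : 0 < m := Nat.pos_of_ne_zero (by
    rintro rfl
    omega)
  have hm : m < p * m := by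
    have := hp.two_le
    nlinarith
  have key : ∀ h : CuspForm 𝒮ℒ (w : ℤ), IsEigen h → coef h (p * m) = coef h p * coef h m -
      if p ∣ m then (p : ℂ) ^ (w - 1) * coef h (m / p) else 0 := by
    intro h hh
    rw [hh.mul p m hp.pos hm0]
    by_cases hpn : p ∣ m
    · rw [if_pos hpn, Nat.gcd_eq_left hpn, hp.divisors, Finset.sum_pair hp.ne_one.symm]
      have h6 : p * m / p ^ 2 = m / p := by rw [pow_two, Nat.mul_div_mul_left _ _ hp.pos]
      rw [h6]
      simp
    · have h6 : p.gcd m = 1 := (hp.coprime_iff_not_dvd).mpr hpn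
      rw [if_neg hpn, h6, Nat.divisors_one, Finset.sum_singleton]
      simp
  rw [key f hf, key g hg, hcon p hp, ih m hm,
    ih (m / p) (lt_of_le_of_lt (Nat.div_le_self m p) hm)]

theorem pet_self_ne (h1 : StPoi) (h2 : StPetU) (h3 : StCoef) (h4 : StFd) (hw : 4 ≤ w)
    (hev : Even w) {f : CuspForm 𝒮ℒ (w : ℤ)} (hf : IsEigen f) : pet f f ≠ 0 := by
  intro h
  have h5 := pet_definite h1 h2 h3 h4 hw hev h
  have h6 := hf.one
  rw [h5] at h6
  have h7 : coef (0 : CuspForm 𝒮ℒ (w : ℤ)) 1 = 0 := by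
    have h8 := coef_smul (0 : ℂ) (0 : CuspForm 𝒮ℒ (w : ℤ)) 1
    rwa [zero_smul, zero_mul] at h8
  rw [h7] at h6
  exact zero_ne_one h6

/-- The eigenvalues are real. -/
theorem coef_real (h1 : StPoi) (h2 : StPetU) (h3 : StCoef) (h4 : StFd) (hS : StSpan)
    (hT : StTrP) (hH : RZC.StHecke) (hw : 4 ≤ w) (hev : Even w) {f : CuspForm 𝒮ℒ (w : ℤ)}
    (hf : IsEigen f) {p : ℕ} (hp : p.Prime) : conj (coef f p) = coef f p := by
  have h5 := T_symm h1 hS hT hw hev h2 h3 h4 hH hp f f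
  rw [T_eigen h1 h3 hS hT hH hw hev hf hp, pet_smul_left, pet_smul_right] at h5
  exact mul_right_cancel₀ (pet_self_ne h1 h2 h3 h4 hw hev hf) h5

/-- Different eigenforms are orthogonal. -/
theorem pet_eigen (h1 : StPoi) (h2 : StPetU) (h3 : StCoef) (h4 : StFd) (hS : StSpan)
    (hT : StTrP) (hH : RZC.StHecke) (hw : 4 ≤ w) (hev : Even w) {f g : CuspForm 𝒮ℒ (w : ℤ)}
    (hf : IsEigen f) (hg : IsEigen g) (hfg : f ≠ g) : pet f g = 0 := by
  obtain ⟨p, hp, hne⟩ := exists_ne h3 hf hg hfg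
  have h5 := T_symm h1 hS hT hw hev h2 h3 h4 hH hp f g
  rw [T_eigen h1 h3 hS hT hH hw hev hf hp, T_eigen h1 h3 hS hT hH hw hev hg hp, pet_smul_left,
    pet_smul_right, coef_real h1 h2 h3 h4 hS hT hH hw hev hf hp] at h5
  have h6 : (coef f p - coef g p) * pet f g = 0 := by linear_combination h5
  exact (mul_eq_zero.mp h6).resolve_left (sub_ne_zero.mpr hne)

/-- **The spectral theorem in level one**: there are finitely many normalised eigenforms, and
every cusp form is the sum of its projections to them. -/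
theorem expansion (h1 : StPoi) (h2 : StPetU) (h3 : StCoef) (h4 : StFd) (hS : StSpan)
    (hT : StTrP) (hH : RZC.StHecke) (hw : 4 ≤ w) (hev : Even w) :
    ∃ E : Finset (CuspForm 𝒮ℒ (w : ℤ)), (∀ f, f ∈ E ↔ IsEigen f) ∧
      ∀ h : CuspForm 𝒮ℒ (w : ℤ), h = ∑ f ∈ E, (pet f h / pet f f) • f := by
  classical
  have hfd : FiniteDimensional ℂ (CuspForm 𝒮ℒ (w : ℤ)) :=
    FiniteDimensional.of_injective CuspForm.toModularFormₗ CuspForm.toModularFormₗ_injective
  have hli : LinearIndependent ℂ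
      (fun f : {f : CuspForm 𝒮ℒ (w : ℤ) | IsEigen f} => (f : CuspForm 𝒮ℒ (w : ℤ))) := by
    rw [linearIndependent_iff']
    intro s c hc i hi
    have h5 : pet (i : CuspForm 𝒮ℒ (w : ℤ)) (∑ j ∈ s, c j • (j : CuspForm 𝒮ℒ (w : ℤ))) = 0 := by
      rw [hc]
      have := pet_smul_right (i : CuspForm 𝒮ℒ (w : ℤ)) 0 0
      rwa [zero_smul, zero_mul] at this
    rw [pet_sum_right h3 h4, Finset.sum_eq_single i] at h5
    · rw [pet_smul_right] at h5
      exact (mul_eq_zero.mp h5).resolve_right (pet_self_ne h1 h2 h3 h4 hw hev i.2)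
    · intro j _ hj
      rw [pet_smul_right, pet_eigen h1 h2 h3 h4 hS hT hH hw hev i.2 j.2
        (fun h => hj (Subtype.ext h.symm)), mul_zero]
    · intro h
      exact absurd hi h
  have hfin : {f : CuspForm 𝒮ℒ (w : ℤ) | IsEigen f}.Finite := hli.setFinite
  refine ⟨hfin.toFinset, fun f => by rw [Set.Finite.mem_toFinset]; rfl, fun h => ?_⟩
  set E := hfin.toFinset with hE
  have hmem : ∀ f, f ∈ E ↔ IsEigen f := fun f => by
    rw [hE, Set.Finite.mem_toFinset]
    rfl
  rw [← sub_eq_zero]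
  set d := h - ∑ f ∈ E, (pet f h / pet f f) • f with hd
  have h5 : ∀ g : CuspForm 𝒮ℒ (w : ℤ), IsEigen g → pet g d = 0 := by
    intro g hg
    have h6 : pet g h = pet g (d + ∑ f ∈ E, (pet f h / pet f f) • f) := by
      rw [hd, sub_add_cancel]
    rw [pet_add_right h3 h4, pet_sum_right h3 h4, Finset.sum_eq_single g] at h6
    · rw [pet_smul_right, div_mul_cancel₀ _ (pet_self_ne h1 h2 h3 h4 hw hev hg)] at h6
      linear_combination -h6
    · intro f hf hfg
      rw [pet_smul_right, pet_eigen h1 h2 h3 h4 hS hT hH hw hev hg ((hmem f).mp hf)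
        (Ne.symm hfg), mul_zero]
    · intro hg'
      exact absurd ((hmem g).mpr hg) hg'
  refine pet_definite h1 h2 h3 h4 hw hev ?_
  have h7 : ∀ x ∈ Submodule.span ℂ {f : CuspForm 𝒮ℒ (w : ℤ) | IsEigen f}, pet x d = 0 := by
    intro x hx
    induction hx using Submodule.span_induction with
    | mem x hx => exact h5 x hx
    | zero =>
      have := pet_smul_left (0 : CuspForm 𝒮ℒ (w : ℤ)) d 0
      rwa [zero_smul, map_zero, zero_mul] at this
    | add x y _ _ hx hy => rw [pet_add_left h3 h4, hx, hy, add_zero]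
    | smul c x _ hx => rw [pet_smul_left, hx, mul_zero]
  refine h7 d ?_
  rw [span_eigen h1 h2 h3 h4 hS hT hH hw hev]
  exact Submodule.mem_top

/-- The expansion of Poincaré series. -/
theorem expansion_poinc (h1 : StPoi) (h2 : StPetU) (h3 : StCoef) (h4 : StFd) (hS : StSpan)
    (hT : StTrP) (hH : RZC.StHecke) (hw : 4 ≤ w) (hev : Even w) :
    ∃ E : Finset (CuspForm 𝒮ℒ (w : ℤ)), (∀ f, f ∈ E ↔ IsEigen f) ∧
      ∀ (m : ℕ) (P : CuspForm 𝒮ℒ (w : ℤ)), 1 ≤ m → (∀ z : ℍ, P z = poinc w m z) →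
        P = ∑ f ∈ E, (conj (coef f m) * (cst w m : ℂ) / pet f f) • f := by
  obtain ⟨E, hE, h5⟩ := expansion h1 h2 h3 h4 hS hT hH hw hev
  refine ⟨E, hE, fun m P hm hP => ?_⟩
  conv_lhs => rw [h5 P]
  refine Finset.sum_congr rfl fun f _ => ?_
  rw [← conj_pet, pet_poinc h2 h3 hw hev hm ⟨hP⟩, map_mul, Complex.conj_ofReal]

/-- A linear functional which is not zero is not zero on some eigenform. -/
theorem exists_eigen_ne (h1 : StPoi) (h2 : StPetU) (h3 : StCoef) (h4 : StFd) (hS : StSpan)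
    (hT : StTrP) (hH : RZC.StHecke) (hw : 4 ≤ w) (hev : Even w)
    (Φ : CuspForm 𝒮ℒ (w : ℤ) →ₗ[ℂ] ℂ) (h : CuspForm 𝒮ℒ (w : ℤ)) (hΦ : Φ h ≠ 0) :
    ∃ f : CuspForm 𝒮ℒ (w : ℤ), IsEigen f ∧ Φ f ≠ 0 := by
  by_contra hcon
  push Not at hcon
  have h5 : Submodule.span ℂ {f : CuspForm 𝒮ℒ (w : ℤ) | IsEigen f} ≤ LinearMap.ker Φ := by
    rw [Submodule.span_le]
    intro f hf
    exact hcon f hf
  rw [span_eigen h1 h2 h3 h4 hS hT hH hw hev] at h5
  exact hΦ (h5 (Submodule.mem_top : h ∈ ⊤))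

end Spec

end RZ

end Pool.Agent.Lib.MP_7c08ba_nt
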