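import Pool.Agent.Lib.MP_7c08ba_nt.RZ.Span
import Pool.Agent.Lib.MP_7c08ba_nt.RZ.PetU
import Pool.Agent.Lib.MP_7c08ba_nt.RZ.Basic

set_option autoImplicit false

/-!
The Petersson product and the Hecke operators on cusp forms of level one.
-/

namespace Pool.Agent.Lib.MP_7c08ba_nt

namespace RZ

open NumberField MeasureTheory UpperHalfPlane Set
open scoped MatrixGroups ComplexConjugate nonZeroDivisors

namespace Spec

open SpanAux

variable {w : ℕ}

/-- The Petersson product (conjugate linear in the first variable). -/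
noncomputable def pet (g h : CuspForm 𝒮ℒ (w : ℤ)) : ℂ :=
  ∫ z : ℍ in ModularGroup.fd, conj (g z) * h z * (z.im : ℂ) ^ w

theorem continuous_cusp (g : CuspForm 𝒮ℒ (w : ℤ)) : Continuous fun z : ℍ => g z := by
  have h := (continuousOn_ext g).comp_continuous continuous_coe fun z => z.im_pos
  have h2 : (fun z : ℍ => g z) = fun z : ℍ => ext g z := by
    funext z
    rw [ext_coe]
  rw [h2]
  exact h

theorem continuous_pet (g h : CuspForm 𝒮ℒ (w : ℤ)) :
    Continuous fun z : ℍ => conj (g z) * h z * (z.im : ℂ) ^ w := by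
  refine (Continuous.mul ?_ ?_).mul ?_
  · exact Complex.continuous_conj.comp (continuous_cusp g)
  · exact continuous_cusp h
  · exact (Complex.continuous_ofReal.comp continuous_im).pow w

theorem integrable_pet (h3 : StCoef) (h4 : StFd) (g h : CuspForm 𝒮ℒ (w : ℤ)) :
    IntegrableOn (fun z : ℍ => conj (g z) * h z * (z.im : ℂ) ^ w) ModularGroup.fd := by
  obtain ⟨-, -, -, ⟨C₁, hC₁⟩, -⟩ := h3 w g
  obtain ⟨-, -, -, ⟨C₂, hC₂⟩, -⟩ := h3 w h
  refine Measure.integrableOn_of_bounded (M := C₁ * C₂) h4.1.ne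
    (continuous_pet g h).aestronglyMeasurable (Filter.Eventually.of_forall fun z => ?_)
  have hy : 0 < z.im := z.im_pos
  have b1 : ‖g z‖ * z.im ^ ((w : ℝ) / 2) ≤ C₁ := by
    have := hC₁ z z.im_pos
    rwa [ofComplex_apply] at this
  have b2 : ‖h z‖ * z.im ^ ((w : ℝ) / 2) ≤ C₂ := by
    have := hC₂ z z.im_pos
    rwa [ofComplex_apply] at this
  have e : (z.im : ℝ) ^ w = z.im ^ ((w : ℝ) / 2) * z.im ^ ((w : ℝ) / 2) := by
    rw [← Real.rpow_add hy, add_halves, Real.rpow_natCast]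
  have n1 : ‖((z.im : ℝ) : ℂ) ^ w‖ = (z.im : ℝ) ^ w := by
    rw [norm_pow, Complex.norm_real, Real.norm_of_nonneg hy.le]
  rw [norm_mul, norm_mul, n1, e, RCLike.norm_conj]
  calc ‖g z‖ * ‖h z‖ * (z.im ^ ((w : ℝ) / 2) * z.im ^ ((w : ℝ) / 2))
      = (‖g z‖ * z.im ^ ((w : ℝ) / 2)) * (‖h z‖ * z.im ^ ((w : ℝ) / 2)) := by ring
    _ ≤ C₁ * C₂ := mul_le_mul b1 b2 (by positivity) (le_trans (by positivity) b1)

theorem pet_add_left (h3 : StCoef) (h4 : StFd) (g g' h : CuspForm 𝒮ℒ (w : ℤ)) :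
    pet (g + g') h = pet g h + pet g' h := by
  unfold pet
  rw [← integral_add (integrable_pet h3 h4 g h) (integrable_pet h3 h4 g' h)]
  refine integral_congr_ae (Filter.Eventually.of_forall fun z => ?_)
  change conj (g z + g' z) * h z * (z.im : ℂ) ^ w = _
  rw [map_add]
  ring

theorem pet_smul_left (g h : CuspForm 𝒮ℒ (w : ℤ)) (c : ℂ) :
    pet (c • g) h = conj c * pet g h := by
  unfold pet
  rw [← integral_const_mul]
  refine integral_congr_ae (Filter.Eventually.of_forall fun z => ?_)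
  change conj (c * g z) * h z * (z.im : ℂ) ^ w = _
  rw [map_mul]
  ring

theorem conj_pet (g h : CuspForm 𝒮ℒ (w : ℤ)) : conj (pet h g) = pet g h := by
  unfold pet
  rw [← integral_conj]
  refine integral_congr_ae (Filter.Eventually.of_forall fun z => ?_)
  change conj (conj (h z) * g z * (z.im : ℂ) ^ w) = _
  rw [map_mul, map_mul, Complex.conj_conj, map_pow, Complex.conj_ofReal]
  ring

theorem pet_self (g : CuspForm 𝒮ℒ (w : ℤ)) :
    pet g g = ((∫ z : ℍ in ModularGroup.fd, ‖g z‖ ^ 2 * z.im ^ w : ℝ) : ℂ) := by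
  have h0 : ∫ z : ℍ in ModularGroup.fd, ((‖g z‖ ^ 2 * z.im ^ w : ℝ) : ℂ) =
      ((∫ z : ℍ in ModularGroup.fd, ‖g z‖ ^ 2 * z.im ^ w : ℝ) : ℂ) := integral_ofReal
  unfold pet
  rw [← h0]
  refine integral_congr_ae (Filter.Eventually.of_forall fun z => ?_)
  change conj (g z) * g z * (z.im : ℂ) ^ w = ((‖g z‖ ^ 2 * z.im ^ w : ℝ) : ℂ)
  rw [mul_comm (conj (g z)), Complex.mul_conj, Complex.normSq_eq_norm_sq]
  push_cast
  rfl

theorem ee_sum_eq_zero (h3 : StCoef) {g : CuspForm 𝒮ℒ (w : ℤ)} (h : ∀ n, coef g n = 0) :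
    g = 0 := by
  refine DFunLike.ext _ _ fun z => ?_
  have h5 := ((h3 w g).2.2.1 z z.im_pos).2
  rw [ofComplex_apply] at h5
  rw [h5]
  simp [h]

theorem coef_ext (h3 : StCoef) {g h : CuspForm 𝒮ℒ (w : ℤ)} (H : ∀ n, coef g n = coef h n) :
    g = h := by
  refine DFunLike.ext _ _ fun z => ?_
  have h5 := ((h3 w g).2.2.1 z z.im_pos).2
  have h6 := ((h3 w h).2.2.1 z z.im_pos).2
  rw [ofComplex_apply] at h5 h6
  rw [h5, h6]
  simp [H]

/-- Poincaré series as cusp forms. -/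
structure IsPoinc (m : ℕ) (P : CuspForm 𝒮ℒ (w : ℤ)) : Prop where
  eq : ∀ z : ℍ, P z = poinc w m z

theorem conj_poinc (m : ℕ) (z : ℂ) (hz : 0 < z.im) :
    poinc w m (-conj z) = conj (poinc w m z) := by
  rw [PetX.poinc_neg_conj w m z hz]
  unfold poinc
  rw [map_mul, Complex.conj_tsum]
  congr 1
  rw [map_div₀, map_one, map_ofNat]

/-- The product with Poincaré series. -/
theorem pet_poinc (h2 : StPetU) (h3 : StCoef) (hw : 4 ≤ w) (hev : Even w) {m : ℕ} (hm : 1 ≤ m)
    {P : CuspForm 𝒮ℒ (w : ℤ)} (hP : IsPoinc m P) (g : CuspForm 𝒮ℒ (w : ℤ)) :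
    pet P g = coef g m * (cst w m : ℂ) := by
  rw [← outer_integral h3 g m hw hm]
  obtain ⟨-, -, -, hC, -⟩ := h3 w g
  rw [← (h2 w m (ext g) hw hev hm (continuousOn_ext g) (wt_ext g) hC).2]
  refine integral_congr_ae (Filter.Eventually.of_forall fun z => ?_)
  change conj (P z) * g z * (z.im : ℂ) ^ w =
    ext g z * poinc w m (-conj (z : ℂ)) * (z.im : ℂ) ^ w
  rw [conj_poinc m z z.im_pos, hP.eq, ext_coe]
  ring

theorem pet_definite (h1 : StPoi) (h2 : StPetU) (h3 : StCoef) (h4 : StFd) (hw : 4 ≤ w)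
    (hev : Even w) {g : CuspForm 𝒮ℒ (w : ℤ)} (h : pet g g = 0) : g = 0 := by
  rw [pet_self, Complex.ofReal_eq_zero] at h
  have hint : IntegrableOn (fun z : ℍ => ‖g z‖ ^ 2 * z.im ^ w) ModularGroup.fd := by
    have h5 := (integrable_pet h3 h4 g g).re
    refine h5.congr (Filter.Eventually.of_forall fun z => ?_)
    change (conj (g z) * g z * (z.im : ℂ) ^ w).re = _
    rw [mul_comm (conj (g z)), Complex.mul_conj, Complex.normSq_eq_norm_sq, ← Complex.ofReal_pow,
      ← Complex.ofReal_mul, Complex.ofReal_re]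
  have h6 := (integral_eq_zero_iff_of_nonneg (fun z => by
    have := z.im_pos
    positivity) hint).mp h
  refine ee_sum_eq_zero h3 fun m => ?_
  rcases Nat.eq_zero_or_pos m with rfl | hm
  · exact (h3 w g).1
  obtain ⟨P, hP⟩ := h1 w m (by omega) hev hm
  have h7 := pet_poinc h2 h3 hw hev hm ⟨hP⟩ g
  have h8 : pet P g = 0 := by
    unfold pet
    rw [← integral_zero ℍ ℂ (μ := volume.restrict (ModularGroup.fd : Set ℍ))]
    refine integral_congr_ae ?_
    filter_upwards [h6] with z hz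
    have h9 : ‖g z‖ ^ 2 * z.im ^ w = 0 := hz
    rcases mul_eq_zero.mp h9 with h10 | h10
    · have h11 : g z = 0 := norm_eq_zero.mp (pow_eq_zero_iff two_ne_zero |>.mp h10)
      rw [h11]
      ring
    · exact absurd h10 (pow_pos z.im_pos w).ne'
  rw [h8] at h7
  rcases mul_eq_zero.mp h7.symm with h | h
  · exact h
  · exact absurd (Complex.ofReal_eq_zero.mp h) (cst_pos w m hw hm).ne'

/-- The inner product space. -/
@[reducible]
noncomputable def core (h1 : StPoi) (h2 : StPetU) (h3 : StCoef) (h4 : StFd) (hw : 4 ≤ w)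
    (hev : Even w) : InnerProductSpace.Core ℂ (CuspForm 𝒮ℒ (w : ℤ)) where
  inner := pet
  conj_inner_symm g h := conj_pet g h
  re_inner_nonneg g := by
    rw [pet_self]
    change 0 ≤ (((∫ z : ℍ in ModularGroup.fd, ‖g z‖ ^ 2 * z.im ^ w : ℝ) : ℂ)).re
    rw [Complex.ofReal_re]
    exact integral_nonneg fun z => by
      have := z.im_pos
      positivity
  add_left g g' h := pet_add_left h3 h4 g g' h
  smul_left g h c := pet_smul_left g h c
  definite _ h := pet_definite h1 h2 h3 h4 hw hev h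

end Spec

end RZ

end Pool.Agent.Lib.MP_7c08ba_nt
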