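import Mathlib

set_option autoImplicit false

/-!
From the relations of the Hecke operators of prime index to all relations.
-/

namespace Pool.Agent.Lib.MP_7c08ba_nt

namespace RZ

namespace Spec

/-- The relation of prime index. -/
def PrimeRel (k : ℕ) (a : ℕ → ℂ) : Prop :=
  ∀ p n : ℕ, p.Prime → 0 < n →
    a p * a n = a (p * n) + if p ∣ n then (p : ℂ) ^ k * a (n / p) else 0

/-- The sum in the relations. -/
noncomputable def ss (k : ℕ) (a : ℕ → ℂ) (m n : ℕ) : ℂ :=
  ∑ d ∈ (m.gcd n).divisors, (d : ℂ) ^ k * a (m * n / d ^ 2)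

/-- The sum over all `d` up to a bound. -/
theorem ss_eq (k : ℕ) (a : ℕ → ℂ) {m n N : ℕ} (hm : 0 < m) (hn : 0 < n) (hN : n ≤ N) :
    ss k a m n = ∑ d ∈ Finset.range (N + 1),
      if d ∣ m ∧ d ∣ n then (d : ℂ) ^ k * a (m * n / d ^ 2) else 0 := by
  unfold ss
  rw [← Finset.sum_filter]
  refine Finset.sum_congr ?_ fun _ _ => rfl
  ext d
  simp only [Nat.mem_divisors, Nat.dvd_gcd_iff, Finset.mem_filter, Finset.mem_range]
  constructor
  · rintro ⟨⟨h1, h2⟩, h3⟩
    exact ⟨by have := Nat.le_of_dvd hn h2; omega, h1, h2⟩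
  · rintro ⟨-, h1, h2⟩
    exact ⟨⟨h1, h2⟩, (Nat.gcd_pos_of_pos_left n hm).ne'⟩

theorem mul_of_prime (k : ℕ) {a : ℕ → ℂ} (h1 : a 1 = 1) (h : PrimeRel k a) :
    ∀ m n : ℕ, 0 < m → 0 < n → a m * a n = ss k a m n := by
  intro m
  induction m using Nat.strong_induction_on with
  | _ m ih =>
  intro n hm hn
  rcases Nat.lt_or_ge 1 m with hm1 | hm1
  swap
  · have : m = 1 := by omega
    subst this
    rw [h1, one_mul]
    unfold ss
    rw [Nat.gcd_one_left, Nat.divisors_one, Finset.sum_singleton]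
    simp
  obtain ⟨p, hp, m', rfl⟩ := Nat.exists_prime_and_dvd (by omega : m ≠ 1)
  have hp0 : 0 < p := hp.pos
  have hm' : 0 < m' := by
    rcases Nat.eq_zero_or_pos m' with h0 | h0
    · rw [h0] at hm
      omega
    · exact h0
  have hlt : m' < p * m' := by
    have := hp.two_le
    nlinarith
  -- the relation for `m'`
  have e1 : a (p * m') = a p * a m' - if p ∣ m' then (p : ℂ) ^ k * a (m' / p) else 0 := by
    rw [h p m' hp hm']
    ring
  have e2 : a m' * a n = ss k a m' n := ih m' hlt n hm' hn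
  -- the second term
  have e3 : (if p ∣ m' then (p : ℂ) ^ k * a (m' / p) else 0) * a n =
      ∑ d ∈ Finset.range (n + 1), if p * d ∣ m' ∧ d ∣ n then
        (p : ℂ) ^ k * (d : ℂ) ^ k * a (m' * n / (p * d ^ 2)) else 0 := by
    by_cases hpm : p ∣ m'
    · obtain ⟨m'', rfl⟩ := hpm
      have hm'' : 0 < m'' := by
        rcases Nat.eq_zero_or_pos m'' with h0 | h0
        · rw [h0] at hm'
          omega
        · exact h0
      have hlt' : m'' < p * (p * m'') := by
        have := hp.two_le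
        nlinarith [mul_pos hp0 hm'']
      rw [if_pos (dvd_mul_right p m''), Nat.mul_div_cancel_left _ hp0, mul_assoc,
        ih m'' hlt' n hm'' hn, ss_eq k a hm'' hn le_rfl, Finset.mul_sum]
      refine Finset.sum_congr rfl fun d _ => ?_
      have h5 : (p * d ∣ p * m'') ↔ d ∣ m'' := Nat.mul_dvd_mul_iff_left hp0
      by_cases hd : d ∣ m'' ∧ d ∣ n
      · rw [if_pos hd, if_pos ⟨h5.mpr hd.1, hd.2⟩, mul_assoc p m'' n,
          Nat.mul_div_mul_left _ _ hp0]
        ring
      · rw [if_neg hd, if_neg (fun h6 => hd ⟨h5.mp h6.1, h6.2⟩), mul_zero]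
    · rw [if_neg hpm, zero_mul]
      symm
      refine Finset.sum_eq_zero fun d _ => ?_
      rw [if_neg fun h6 => hpm (dvd_of_mul_right_dvd h6.1)]
  -- the first term
  have e4 : a p * ss k a m' n = ∑ d ∈ Finset.range (n + 1), if d ∣ m' ∧ d ∣ n then
      (d : ℂ) ^ k * (a (p * m' * n / d ^ 2) +
        if p ∣ m' * n / d ^ 2 then (p : ℂ) ^ k * a (m' * n / (p * d ^ 2)) else 0) else 0 := by
    rw [ss_eq k a hm' hn le_rfl, Finset.mul_sum]
    refine Finset.sum_congr rfl fun d _ => ?_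
    by_cases hd : d ∣ m' ∧ d ∣ n
    · rw [if_pos hd, if_pos hd]
      have hd2 : d ^ 2 ∣ m' * n := by
        rw [pow_two]
        exact mul_dvd_mul hd.1 hd.2
      have hpos : 0 < m' * n / d ^ 2 :=
        Nat.div_pos (Nat.le_of_dvd (mul_pos hm' hn) hd2)
          (pow_pos (Nat.pos_of_dvd_of_pos hd.1 hm') 2)
      have h5 := h p (m' * n / d ^ 2) hp hpos
      have h6 : p * (m' * n / d ^ 2) = p * m' * n / d ^ 2 := by
        rw [mul_assoc p m' n, Nat.mul_div_assoc p hd2]
      have h7 : m' * n / d ^ 2 / p = m' * n / (p * d ^ 2) := by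
        rw [Nat.div_div_eq_div_mul, mul_comm (d ^ 2) p]
      rw [h6, h7] at h5
      rw [← h5]
      ring
    · rw [if_neg hd, if_neg hd, mul_zero]
  -- the sum for `p m'`
  have e5 : ss k a (p * m') n = (∑ d ∈ Finset.range (n + 1), if d ∣ m' ∧ d ∣ n then
      (d : ℂ) ^ k * a (p * m' * n / d ^ 2) else 0) +
      ∑ d ∈ Finset.range (n + 1), if d ∣ p * m' ∧ ¬ d ∣ m' ∧ d ∣ n then
        (d : ℂ) ^ k * a (p * m' * n / d ^ 2) else 0 := by
    rw [ss_eq k a hm hn le_rfl, ← Finset.sum_add_distrib]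
    refine Finset.sum_congr rfl fun d _ => ?_
    by_cases h5 : d ∣ m'
    · have h6 : d ∣ p * m' := h5.mul_left p
      by_cases h7 : d ∣ n <;> simp [h5, h6, h7]
    · by_cases h6 : d ∣ p * m' <;> by_cases h7 : d ∣ n <;> simp [h5, h6, h7]
  -- the new divisors
  have e6 : (∑ d ∈ Finset.range (n + 1), if d ∣ p * m' ∧ ¬ d ∣ m' ∧ d ∣ n then
        (d : ℂ) ^ k * a (p * m' * n / d ^ 2) else 0) =
      ∑ e ∈ Finset.range (n + 1), if e ∣ m' ∧ ¬ p * e ∣ m' ∧ p * e ∣ n then
        (p : ℂ) ^ k * (e : ℂ) ^ k * a (m' * n / (p * e ^ 2)) else 0 := by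
    rw [← Finset.sum_filter, ← Finset.sum_filter]
    symm
    refine Finset.sum_bij (fun e _ => p * e) ?_ ?_ ?_ ?_
    · intro e he
      rw [Finset.mem_filter, Finset.mem_range] at he ⊢
      obtain ⟨-, h5, h6, h7⟩ := he
      exact ⟨by have := Nat.le_of_dvd hn h7; omega, mul_dvd_mul_left p h5, h6, h7⟩
    · intro e _ e' _ h5
      exact Nat.eq_of_mul_eq_mul_left hp0 h5
    · intro d hd
      rw [Finset.mem_filter, Finset.mem_range] at hd
      obtain ⟨h4, h5, h6, h7⟩ := hd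
      have h8 : p ∣ d := by
        by_contra h9
        exact h6 ((hp.coprime_iff_not_dvd.mpr h9).symm.dvd_of_dvd_mul_left h5)
      obtain ⟨e, rfl⟩ := h8
      have h9 : e ∣ m' := (Nat.mul_dvd_mul_iff_left hp0).mp h5
      refine ⟨e, ?_, rfl⟩
      rw [Finset.mem_filter, Finset.mem_range]
      refine ⟨?_, h9, h6, h7⟩
      have : e ≤ p * e := Nat.le_mul_of_pos_left e hp0
      omega
    · intro e he
      rw [Finset.mem_filter] at he
      obtain ⟨-, h5, -, -⟩ := he
      have h6 : p * m' * n / (p * e) ^ 2 = m' * n / (p * e ^ 2) := by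
        have : (p * e) ^ 2 = p * (p * e ^ 2) := by ring
        rw [this, mul_assoc p m' n, Nat.mul_div_mul_left _ _ hp0]
      rw [h6]
      push_cast
      ring
  -- the combinatorial identity
  rw [e1, sub_mul, mul_assoc, e2, e3, e4, e5, e6, sub_eq_iff_eq_add, ← Finset.sum_add_distrib,
    ← Finset.sum_add_distrib]
  refine Finset.sum_congr rfl fun d _ => ?_
  by_cases h5 : d ∣ m'
  swap
  · have h6 : ¬ p * d ∣ m' := fun h7 => h5 (dvd_of_mul_left_dvd h7)
    simp [h5, h6]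
  by_cases h6 : d ∣ n
  swap
  · have h7 : ¬ p * d ∣ n := fun h7 => h6 (dvd_of_mul_left_dvd h7)
    simp [h6, h7]
  obtain ⟨x, rfl⟩ := h5
  obtain ⟨y, rfl⟩ := h6
  have hd0 : 0 < d := Nat.pos_of_dvd_of_pos (dvd_mul_right d x) hm'
  have h7 : d * x * (d * y) / d ^ 2 = x * y := by
    have : d * x * (d * y) = d ^ 2 * (x * y) := by ring
    rw [this, Nat.mul_div_cancel_left _ (pow_pos hd0 2)]
  have h8 : ∀ z : ℕ, p * d ∣ d * z ↔ p ∣ z := fun z => by
    rw [mul_comm p d]
    exact Nat.mul_dvd_mul_iff_left hd0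
  have h11 : p ∣ x * y ↔ p ∣ x ∨ p ∣ y := hp.dvd_mul
  have h12 := h8 x
  have h13 := h8 y
  by_cases h9 : p ∣ x <;> by_cases h10 : p ∣ y <;>
    simp only [h7, h11, h12, h13, h9, h10, dvd_mul_right, true_and, and_true, true_or, or_true,
      or_false, false_or, if_true, if_false, not_true, not_false_eq_true, false_and, and_false] <;>
    ring

end Spec

end RZ

end Pool.Agent.Lib.MP_7c08ba_nt
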