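import Pool.Agent.Lib.MP_7c08ba_nt.RZ.R1.SpecA
import Pool.Agent.Lib.MP_7c08ba_nt.RZ.R1.SpecB

set_option autoImplicit false

/-!
The Hecke operators of prime index on cusp forms of level one.
-/

namespace Pool.Agent.Lib.MP_7c08ba_nt

namespace RZ

open NumberField MeasureTheory UpperHalfPlane Set
open scoped MatrixGroups ComplexConjugate nonZeroDivisors

namespace Spec

open SpanAux

variable {w : ℕ}

/-- The Hecke operator on functions. -/
noncomputable def Tpt (w p : ℕ) (F : ℂ → ℂ) (z : ℂ) : ℂ :=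
  ∑ d ∈ p.divisors, ∑ b ∈ Finset.range d, (((p / d : ℕ) : ℂ)) ^ (w - 1) * (d : ℂ)⁻¹ *
    F ((((p / d : ℕ) : ℂ) * z + b) / d)

/-- A formula for the Hecke operator on functions. -/
theorem Tpt_eq {p : ℕ} (hp : p.Prime) (F : ℂ → ℂ) (z : ℂ) :
    Tpt w p F z = (p : ℂ) ^ (w - 1) * F (p * z) +
      ∑ b ∈ Finset.range p, (p : ℂ)⁻¹ * F ((z + b) / p) := by
  unfold Tpt
  rw [hp.divisors, Finset.sum_pair hp.ne_one.symm, Finset.sum_range_one, Nat.div_one,
    Nat.div_self hp.pos]
  simp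

theorem poinc_mem_span (h1 : StPoi) (hS : StSpan) (hw : 4 ≤ w) (hev : Even w) :
    Submodule.span ℂ {P : CuspForm 𝒮ℒ (w : ℤ) | ∃ m, 1 ≤ m ∧ IsPoinc m P} = ⊤ := by
  rw [eq_top_iff]
  intro f _
  obtain ⟨β, hβ0, hβ⟩ := hS w f hw hev
  have hP : ∀ m : ℕ, ∃ P : CuspForm 𝒮ℒ (w : ℤ), 1 ≤ m → IsPoinc m P := by
    intro m
    by_cases hm : 1 ≤ m
    · obtain ⟨P, hP⟩ := h1 w m (by omega) hev hm
      exact ⟨P, fun _ => ⟨hP⟩⟩
    · exact ⟨0, fun h => absurd h hm⟩
  choose P hP using hP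
  have h2 : f = β.sum fun m b => b • P m := by
    refine DFunLike.ext _ _ fun z => ?_
    let ev : CuspForm 𝒮ℒ (w : ℤ) →ₗ[ℂ] ℂ :=
      { toFun := fun g => g z
        map_add' := fun _ _ => rfl
        map_smul' := fun _ _ => rfl }
    change _ = ev (β.sum fun m b => b • P m)
    rw [map_finsuppSum, hβ z]
    refine Finsupp.sum_congr fun m hm => ?_
    have hm0 : 1 ≤ m := by
      rcases Nat.eq_zero_or_pos m with h | h
      · rw [h] at hm
        exact absurd hβ0 (Finsupp.mem_support_iff.mp hm)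
      · exact h
    rw [← (hP m hm0).eq z]
    rfl
  rw [h2]
  refine Submodule.sum_mem _ fun m hm => Submodule.smul_mem _ _ (Submodule.subset_span ⟨m, ?_, ?_⟩)
  · rcases Nat.eq_zero_or_pos m with h | h
    · rw [h] at hm
      exact absurd hβ0 (Finsupp.mem_support_iff.mp hm)
    · exact h
  · refine hP m ?_
    rcases Nat.eq_zero_or_pos m with h | h
    · rw [h] at hm
      exact absurd hβ0 (Finsupp.mem_support_iff.mp hm)
    · exact h

theorem ext_poinc {m : ℕ} {P : CuspForm 𝒮ℒ (w : ℤ)} (hP : IsPoinc m P) {z : ℂ} (hz : 0 < z.im) :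
    ext P z = poinc w m z := by
  rw [ext_pos P hz, hP.eq]

/-- The Hecke operator of a Poincaré series. -/
theorem Tpt_poinc (hT : StTrP) (hw : 4 ≤ w) (hev : Even w) {p : ℕ} (hp : p.Prime) {m : ℕ}
    (hm : 1 ≤ m) {P : CuspForm 𝒮ℒ (w : ℤ)} (hP : IsPoinc m P) {z : ℂ} (hz : 0 < z.im) :
    Tpt w p (ext P) z =
      ∑ g ∈ (m.gcd p).divisors, ((p / g : ℕ) : ℂ) ^ (w - 1) * poinc w (p * m / g ^ 2) z := by
  rw [← hT w m p z (by omega) hev hm hp.pos hz]
  refine Finset.sum_congr rfl fun d hd => Finset.sum_congr rfl fun b _ => ?_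
  congr 1
  refine ext_poinc hP ?_
  have hd0 : 0 < d := Nat.pos_of_mem_divisors hd
  have hpd : 0 < p / d := Nat.div_pos (Nat.divisor_le hd) hd0
  have h1 : ((((p / d : ℕ) : ℂ) * z + b) / d).im = ((p / d : ℕ) : ℝ) * z.im / d := by
    rw [Complex.div_natCast_im, Complex.add_im, Complex.natCast_im, add_zero,
      ← Complex.ofReal_natCast, Complex.im_ofReal_mul]
  rw [h1]
  have : (0 : ℝ) < (p / d : ℕ) := by exact_mod_cast hpd
  have : (0 : ℝ) < d := by exact_mod_cast hd0
  positivity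

/-- The Hecke operator maps cusp forms to cusp forms. -/
theorem exists_T (h1 : StPoi) (hS : StSpan) (hT : StTrP) (hw : 4 ≤ w) (hev : Even w) {p : ℕ}
    (hp : p.Prime) (f : CuspForm 𝒮ℒ (w : ℤ)) :
    ∃ g : CuspForm 𝒮ℒ (w : ℤ), ∀ z : ℍ, g z = Tpt w p (ext f) z := by
  have hf : f ∈ Submodule.span ℂ {P : CuspForm 𝒮ℒ (w : ℤ) | ∃ m, 1 ≤ m ∧ IsPoinc m P} := by
    rw [poinc_mem_span h1 hS hw hev]
    exact Submodule.mem_top
  induction hf using Submodule.span_induction with
  | mem f hf =>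
    obtain ⟨m, hm, hP⟩ := hf
    have hQ : ∀ n : ℕ, ∃ P : CuspForm 𝒮ℒ (w : ℤ), 1 ≤ n → IsPoinc n P := by
      intro n
      by_cases hn : 1 ≤ n
      · obtain ⟨P, hP⟩ := h1 w n (by omega) hev hn
        exact ⟨P, fun _ => ⟨hP⟩⟩
      · exact ⟨0, fun h => absurd h hn⟩
    choose Q hQ using hQ
    refine ⟨∑ g ∈ (m.gcd p).divisors, ((p / g : ℕ) : ℂ) ^ (w - 1) • Q (p * m / g ^ 2),
      fun z => ?_⟩
    rw [Tpt_poinc hT hw hev hp hm hP z.im_pos]
    let ev : CuspForm 𝒮ℒ (w : ℤ) →ₗ[ℂ] ℂ :=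
      { toFun := fun g => g z
        map_add' := fun _ _ => rfl
        map_smul' := fun _ _ => rfl }
    change ev _ = _
    rw [map_sum]
    refine Finset.sum_congr rfl fun g hg => ?_
    rw [map_smul, smul_eq_mul]
    congr 1
    have hg1 : g ∣ m := (Nat.dvd_of_mem_divisors hg).trans (Nat.gcd_dvd_left m p)
    have hg2 : g ∣ p := (Nat.dvd_of_mem_divisors hg).trans (Nat.gcd_dvd_right m p)
    have hg3 : g ^ 2 ∣ p * m := by
      rw [pow_two]
      exact mul_dvd_mul hg2 hg1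
    have hg4 : 1 ≤ p * m / g ^ 2 :=
      Nat.div_pos (Nat.le_of_dvd (mul_pos hp.pos hm) hg3)
        (pow_pos (Nat.pos_of_mem_divisors hg) 2)
    exact (hQ _ hg4).eq z
  | zero =>
    refine ⟨0, fun z => ?_⟩
    have h2 : Tpt w p (ext (0 : CuspForm 𝒮ℒ (w : ℤ))) z = 0 := by
      unfold Tpt
      refine Finset.sum_eq_zero fun d _ => Finset.sum_eq_zero fun b _ => ?_
      change _ * (0 : ℂ) = 0
      rw [mul_zero]
    rw [h2]
    rfl
  | add f g _ _ hf hg =>
    obtain ⟨f', hf'⟩ := hf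
    obtain ⟨g', hg'⟩ := hg
    refine ⟨f' + g', fun z => ?_⟩
    change f' z + g' z = _
    rw [hf', hg']
    unfold Tpt
    rw [← Finset.sum_add_distrib]
    refine Finset.sum_congr rfl fun d _ => ?_
    rw [← Finset.sum_add_distrib]
    refine Finset.sum_congr rfl fun b _ => ?_
    rw [ext_add]
    ring
  | smul c f _ hf =>
    obtain ⟨f', hf'⟩ := hf
    refine ⟨c • f', fun z => ?_⟩
    change c * f' z = _
    rw [hf']
    unfold Tpt
    rw [Finset.mul_sum]
    refine Finset.sum_congr rfl fun d _ => ?_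
    rw [Finset.mul_sum]
    refine Finset.sum_congr rfl fun b _ => ?_
    rw [ext_smul]
    ring

/-- The Hecke operator. -/
noncomputable def T (h1 : StPoi) (hS : StSpan) (hT : StTrP) (hw : 4 ≤ w) (hev : Even w) {p : ℕ}
    (hp : p.Prime) : CuspForm 𝒮ℒ (w : ℤ) →ₗ[ℂ] CuspForm 𝒮ℒ (w : ℤ) where
  toFun f := (exists_T h1 hS hT hw hev hp f).choose
  map_add' f g := by
    have hf := (exists_T h1 hS hT hw hev hp f).choose_spec
    have hg := (exists_T h1 hS hT hw hev hp g).choose_spec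
    have hfg := (exists_T h1 hS hT hw hev hp (f + g)).choose_spec
    refine DFunLike.ext _ _ fun z => ?_
    change _ = (exists_T h1 hS hT hw hev hp f).choose z + (exists_T h1 hS hT hw hev hp g).choose z
    rw [hf, hg, hfg]
    unfold Tpt
    rw [← Finset.sum_add_distrib]
    refine Finset.sum_congr rfl fun d _ => ?_
    rw [← Finset.sum_add_distrib]
    refine Finset.sum_congr rfl fun b _ => ?_
    rw [ext_add]
    ring
  map_smul' c f := by
    have hf := (exists_T h1 hS hT hw hev hp f).choose_spec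
    have hfg := (exists_T h1 hS hT hw hev hp (c • f)).choose_spec
    refine DFunLike.ext _ _ fun z => ?_
    change _ = c * (exists_T h1 hS hT hw hev hp f).choose z
    rw [hf, hfg]
    unfold Tpt
    rw [Finset.mul_sum]
    refine Finset.sum_congr rfl fun d _ => ?_
    rw [Finset.mul_sum]
    refine Finset.sum_congr rfl fun b _ => ?_
    rw [ext_smul]
    ring

variable (h1 : StPoi) (hS : StSpan) (hT : StTrP) (hw : 4 ≤ w) (hev : Even w)

theorem T_apply {p : ℕ} (hp : p.Prime) (f : CuspForm 𝒮ℒ (w : ℤ)) (z : ℍ) :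
    T h1 hS hT hw hev hp f z = Tpt w p (ext f) z :=
  (exists_T h1 hS hT hw hev hp f).choose_spec z

/-- Fourier coefficients. -/
theorem coef_T (hH : RZC.StHecke) {p : ℕ} (hp : p.Prime) (f : CuspForm 𝒮ℒ (w : ℤ)) (n : ℕ) :
    coef (T h1 hS hT hw hev hp f) n =
      coef f (p * n) + if p ∣ n then (p : ℂ) ^ (w - 1) * coef f (n / p) else 0 := by
  obtain ⟨g, hg, hg2⟩ := hH p hp w (by omega) (CuspForm.toModularFormₗ f)
  have h2 : (T h1 hS hT hw hev hp f : ℍ → ℂ) = (g : ℍ → ℂ) := by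
    funext z
    rw [T_apply, Tpt_eq hp]
    have h3 := hg2 z 1 (RZC.pos_tau z)
    rw [RZC.LF_tau] at h3
    rw [h3, Fintype.sum_option]
    have hp0 : (p : ℂ) ≠ 0 := Nat.cast_ne_zero.mpr hp.ne_zero
    have h4 : ((p : ℂ) ^ w)⁻¹ * (p : ℂ) ^ (w - 1) = (p : ℂ)⁻¹ := by
      obtain ⟨v, rfl⟩ : ∃ v, w = v + 1 := ⟨w - 1, by omega⟩
      rw [Nat.add_sub_cancel, pow_succ]
      field_simp
    rw [mul_add]
    congr 1
    · congr 1
      simp only [RZC.LFs, RZC.LF, RZC.sub, one_pow, inv_one, one_mul, div_one]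
      rfl
    · rw [Finset.sum_range, Finset.mul_sum]
      refine Finset.sum_congr rfl fun b _ => ?_
      rw [← h4]
      simp only [RZC.LFs, RZC.LF, RZC.sub, mul_one]
      have h5 : ext f (((z : ℂ) + (b : ℕ)) / p) =
          (CuspForm.toModularFormₗ f) (ofComplex (((z : ℂ) + (b : ℕ)) / p)) := rfl
      rw [h5]
      ring
  have h6 : coef (T h1 hS hT hw hev hp f) n = RZC.cf g n := by
    unfold coef RZC.cf
    rw [h2]
  rw [h6, hg n]
  rfl

theorem cst_mul {p m : ℕ} (hp : 0 < p) (hw : 4 ≤ w) : (p : ℝ) ^ (w - 1) * cst w (p * m) = cst w m := by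
  unfold cst
  have h2 : (w : ℝ) - 1 = ((w - 1 : ℕ) : ℝ) := by
    rw [Nat.cast_sub (by omega)]
    simp
  rw [h2, Real.rpow_natCast, Real.rpow_natCast, ← mul_assoc, ← mul_pow]
  have hp' : (p : ℝ) ≠ 0 := by exact_mod_cast hp.ne'
  have h3 : (p : ℝ) * (1 / (4 * Real.pi * ((p * m : ℕ) : ℝ))) = 1 / (4 * Real.pi * m) := by
    push_cast
    field_simp
  rw [h3]

theorem pet_sum_left (h3 : StCoef) (h4 : StFd) {ι : Type} (s : Finset ι)
    (f : ι → CuspForm 𝒮ℒ (w : ℤ)) (h : CuspForm 𝒮ℒ (w : ℤ)) :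
    pet (∑ i ∈ s, f i) h = ∑ i ∈ s, pet (f i) h := by
  classical
  induction s using Finset.induction_on with
  | empty =>
    rw [Finset.sum_empty, Finset.sum_empty]
    have := pet_smul_left (0 : CuspForm 𝒮ℒ (w : ℤ)) h 0
    rw [zero_smul, map_zero, zero_mul] at this
    exact this
  | insert i s hi ih =>
    rw [Finset.sum_insert hi, Finset.sum_insert hi, pet_add_left h3 h4, ih]

/-- The Hecke operators are symmetric. -/
theorem T_symm (h2 : StPetU) (h3 : StCoef) (h4 : StFd) (hH : RZC.StHecke) {p : ℕ} (hp : p.Prime)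
    (f g : CuspForm 𝒮ℒ (w : ℤ)) :
    pet (T h1 hS hT hw hev hp f) g = pet f (T h1 hS hT hw hev hp g) := by
  have hf : f ∈ Submodule.span ℂ {P : CuspForm 𝒮ℒ (w : ℤ) | ∃ m, 1 ≤ m ∧ IsPoinc m P} := by
    rw [poinc_mem_span h1 hS hw hev]
    exact Submodule.mem_top
  induction hf using Submodule.span_induction with
  | mem f hf =>
    obtain ⟨m, hm, hP⟩ := hf
    have hQ : ∀ n : ℕ, ∃ P : CuspForm 𝒮ℒ (w : ℤ), 1 ≤ n → IsPoinc n P := by
      intro n
      by_cases hn : 1 ≤ n
      · obtain ⟨P, hP⟩ := h1 w n (by omega) hev hn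
        exact ⟨P, fun _ => ⟨hP⟩⟩
      · exact ⟨0, fun h => absurd h hn⟩
    choose Q hQ using hQ
    have hpos : ∀ e ∈ (m.gcd p).divisors, 1 ≤ p * m / e ^ 2 := by
      intro e he
      have hg1 : e ∣ m := (Nat.dvd_of_mem_divisors he).trans (Nat.gcd_dvd_left m p)
      have hg2 : e ∣ p := (Nat.dvd_of_mem_divisors he).trans (Nat.gcd_dvd_right m p)
      have hg3 : e ^ 2 ∣ p * m := by
        rw [pow_two]
        exact mul_dvd_mul hg2 hg1
      exact Nat.div_pos (Nat.le_of_dvd (mul_pos hp.pos hm) hg3)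
        (pow_pos (Nat.pos_of_mem_divisors he) 2)
    have h5 : T h1 hS hT hw hev hp f =
        ∑ e ∈ (m.gcd p).divisors, ((p / e : ℕ) : ℂ) ^ (w - 1) • Q (p * m / e ^ 2) := by
      refine DFunLike.ext _ _ fun z => ?_
      rw [T_apply, Tpt_poinc hT hw hev hp hm hP z.im_pos]
      let ev : CuspForm 𝒮ℒ (w : ℤ) →ₗ[ℂ] ℂ :=
        { toFun := fun g => g z
          map_add' := fun _ _ => rfl
          map_smul' := fun _ _ => rfl }
      change _ = ev _
      rw [map_sum]
      refine Finset.sum_congr rfl fun e he => ?_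
      rw [map_smul, smul_eq_mul]
      congr 1
      exact ((hQ _ (hpos e he)).eq z).symm
    have h6 : pet (T h1 hS hT hw hev hp f) g = ∑ e ∈ (m.gcd p).divisors,
        ((p / e : ℕ) : ℂ) ^ (w - 1) * (coef g (p * m / e ^ 2) * (cst w (p * m / e ^ 2) : ℂ)) := by
      rw [h5, pet_sum_left h3 h4]
      refine Finset.sum_congr rfl fun e he => ?_
      rw [pet_smul_left, pet_poinc h2 h3 hw hev (hpos e he) (hQ _ (hpos e he)), map_pow,
        map_natCast]
    have h7 : ((p : ℂ)) ^ (w - 1) * (cst w (p * m) : ℂ) = (cst w m : ℂ) := by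
      rw [← cst_mul (m := m) hp.pos hw]
      push_cast
      rfl
    rw [h6, pet_poinc h2 h3 hw hev hm hP, coef_T h1 hS hT hw hev hH hp]
    by_cases hpm : p ∣ m
    · obtain ⟨m', rfl⟩ := hpm
      have hm' : 0 < m' := by
        rcases Nat.eq_zero_or_pos m' with h0 | h0
        · rw [h0] at hm
          omega
        · exact h0
      have h8 : (p : ℂ) ^ (w - 1) * (cst w (p * m') : ℂ) = (cst w m' : ℂ) := by
        rw [← cst_mul (m := m') hp.pos hw]
        push_cast
        rfl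
      have h9 : (p * m').gcd p = p := Nat.gcd_eq_right (dvd_mul_right p m')
      rw [h9, hp.divisors, Finset.sum_pair hp.ne_one.symm, if_pos (dvd_mul_right p m'),
        Nat.mul_div_cancel_left _ hp.pos, Nat.div_one, Nat.div_self hp.pos, one_pow,
        Nat.div_one, pow_two, Nat.mul_div_mul_left _ _ hp.pos, Nat.mul_div_cancel_left _ hp.pos,
        Nat.cast_one, one_pow, one_mul]
      linear_combination coef g (p * (p * m')) * h7 - coef g m' * h8
    · have h9 : m.gcd p = 1 := by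
        rw [Nat.gcd_comm]
        exact (hp.coprime_iff_not_dvd).mpr hpm
      rw [h9, Nat.divisors_one, Finset.sum_singleton, if_neg hpm, Nat.div_one, one_pow,
        Nat.div_one, add_zero]
      linear_combination coef g (p * m) * h7
  | zero =>
    rw [map_zero]
    have h5 : ∀ h : CuspForm 𝒮ℒ (w : ℤ), pet (0 : CuspForm 𝒮ℒ (w : ℤ)) h = 0 := by
      intro h
      have := pet_smul_left (0 : CuspForm 𝒮ℒ (w : ℤ)) h 0
      rwa [zero_smul, map_zero, zero_mul] at this
    rw [h5, h5]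
  | add f f' _ _ hf hf' =>
    rw [map_add, pet_add_left h3 h4, pet_add_left h3 h4, hf, hf']
  | smul c f _ hf =>
    rw [map_smul, pet_smul_left, pet_smul_left, hf]

/-- The Hecke operators commute. -/
theorem T_comm (h3 : StCoef) (hH : RZC.StHecke) {p q : ℕ} (hp : p.Prime) (hq : q.Prime)
    (hpq : p ≠ q) (f : CuspForm 𝒮ℒ (w : ℤ)) :
    T h1 hS hT hw hev hp (T h1 hS hT hw hev hq f) =
      T h1 hS hT hw hev hq (T h1 hS hT hw hev hp f) := by
  refine coef_ext h3 fun n => ?_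
  have hcop : Nat.Coprime p q := (Nat.coprime_primes hp hq).mpr hpq
  simp only [coef_T h1 hS hT hw hev hH]
  have e1 : q ∣ p * n ↔ q ∣ n := ⟨fun h => hcop.symm.dvd_of_dvd_mul_left h, fun h => h.mul_left p⟩
  have e2 : p ∣ q * n ↔ p ∣ n := ⟨fun h => hcop.dvd_of_dvd_mul_left h, fun h => h.mul_left q⟩
  have e0 : q * (p * n) = p * (q * n) := by ring
  by_cases hpn : p ∣ n <;> by_cases hqn : q ∣ n
  · have h5 : p * q ∣ n := hcop.mul_dvd_of_dvd_of_dvd hpn hqn
    obtain ⟨m, rfl⟩ := h5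
    have a1 : p * (p * q * m) / q = p * (p * m) := by
      have : p * (p * q * m) = q * (p * (p * m)) := by ring
      rw [this, Nat.mul_div_cancel_left _ hq.pos]
    have a2 : q * (p * q * m) / p = q * (q * m) := by
      have : q * (p * q * m) = p * (q * (q * m)) := by ring
      rw [this, Nat.mul_div_cancel_left _ hp.pos]
    have a3 : p * q * m / p = q * m := by
      rw [mul_assoc, Nat.mul_div_cancel_left _ hp.pos]
    have a4 : p * q * m / q = p * m := by
      have : p * q * m = q * (p * m) := by ring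
      rw [this, Nat.mul_div_cancel_left _ hq.pos]
    have a5 : q * m / q = m := Nat.mul_div_cancel_left _ hq.pos
    have a6 : p * m / p = m := Nat.mul_div_cancel_left _ hp.pos
    simp only [e1, e2, hpn, hqn, if_true, a1, a2, a3, a4, a5, a6, dvd_mul_right]
    have a7 : q * (p * (p * q * m)) = p * (q * (p * q * m)) := by ring
    have a8 : q * (q * m) = q * (q * m) := rfl
    rw [a7]
    ring
  · have b1 : ¬ q ∣ n / p := fun h => hqn (h.trans (Nat.div_dvd_of_dvd hpn))
    have b2 : q * n / p = q * (n / p) := Nat.mul_div_assoc q hpn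
    simp only [e1, e2, hpn, hqn, b1, if_true, if_false, e0, add_zero, b2]
  · have b1 : ¬ p ∣ n / q := fun h => hpn (h.trans (Nat.div_dvd_of_dvd hqn))
    have b2 : p * n / q = p * (n / q) := Nat.mul_div_assoc p hqn
    simp only [e1, e2, hpn, hqn, b1, if_true, if_false, e0, add_zero, b2]
  · simp only [e1, e2, hpn, hqn, if_false, e0, add_zero]

end Spec

end RZ

end Pool.Agent.Lib.MP_7c08ba_nt
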